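import Pool.Agent.helper69.MU.Uni

set_option autoImplicit false

/-!
# Project MQ, module MQ2: mixing two independent sequences
-/

namespace Pool.Agent.helper34.MQ

open Finset Filter MeasureTheory Pool.Agent.helper69.MU

instance uni_prob (X : Type) [Fintype X] [Nonempty X] [MeasurableSpace X] : IsProbabilityMeasure (uni X) := by
  unfold uni
  infer_instance

theorem mix_meas {X : ℕ → Type} [∀ n, MeasurableSpace (X n)] (A : Set ℕ) [DecidablePred (· ∈ A)] :
    Measurable (fun p : (∀ n, X n) × (∀ n, X n) => fun l => if l ∈ A then p.1 l else p.2 l) := by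
  refine measurable_pi_iff.mpr (fun l => ?_)
  by_cases h : l ∈ A
  · simp only [if_pos h]
    exact (measurable_pi_apply l).comp measurable_fst
  · simp only [if_neg h]
    exact (measurable_pi_apply l).comp measurable_snd

theorem mix_gen {X : ℕ → Type} [∀ n, MeasurableSpace (X n)] (μ : ∀ n, Measure (X n)) [∀ n, IsProbabilityMeasure (μ n)]
    (A : Set ℕ) [DecidablePred (· ∈ A)] :
    ((Measure.infinitePi μ).prod (Measure.infinitePi μ)).map
      (fun p : (∀ n, X n) × (∀ n, X n) => fun l => if l ∈ A then p.1 l else p.2 l) =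
      Measure.infinitePi μ := by
  refine Measure.eq_infinitePi μ (fun s t ht => ?_)
  have hm : MeasurableSet (Set.pi (s : Set ℕ) t) := MeasurableSet.pi s.countable_toSet (fun i _ => ht i)
  rw [Measure.map_apply (mix_meas A) hm]
  have hpre : (fun p : (∀ n, X n) × (∀ n, X n) => fun l => if l ∈ A then p.1 l else p.2 l) ⁻¹' (Set.pi (s : Set ℕ) t) =
      (Set.pi ((s.filter (· ∈ A) : Finset ℕ) : Set ℕ) t) ×ˢ (Set.pi ((s.filter (fun l => ¬ l ∈ A) : Finset ℕ) : Set ℕ) t) := by
    ext p
    simp only [Set.mem_preimage, Set.mem_pi, Set.mem_prod, mem_coe, mem_filter]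
    constructor
    · intro h
      refine ⟨fun i hi => ?_, fun i hi => ?_⟩
      · have := h i hi.1
        rwa [if_pos hi.2] at this
      · have := h i hi.1
        rwa [if_neg hi.2] at this
    · rintro ⟨h1, h2⟩ i hi
      by_cases hA : i ∈ A
      · rw [if_pos hA]
        exact h1 i ⟨hi, hA⟩
      · rw [if_neg hA]
        exact h2 i ⟨hi, hA⟩
  rw [hpre, Measure.prod_prod, Measure.infinitePi_pi μ (fun i _ => ht i), Measure.infinitePi_pi μ (fun i _ => ht i),
    prod_filter_mul_prod_filter_not]

/-- **MQ2.** -/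
theorem mix_map {X : ℕ → Type} [∀ n, Fintype (X n)] [∀ n, Nonempty (X n)]
    [∀ n, MeasurableSpace (X n)] [∀ n, MeasurableSingletonClass (X n)] (A : Set ℕ) [DecidablePred (· ∈ A)] :
    ((Measure.infinitePi fun n => uni (X n)).prod (Measure.infinitePi fun n => uni (X n))).map
      (fun p : (∀ n, X n) × (∀ n, X n) => fun l => if l ∈ A then p.1 l else p.2 l) =
      Measure.infinitePi fun n => uni (X n) :=
  mix_gen (fun n => uni (X n)) A

/-- **MQ2'.** -/
theorem exists_filler {X : ℕ → Type} [∀ n, Fintype (X n)] [∀ n, Nonempty (X n)]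
    [∀ n, MeasurableSpace (X n)] [∀ n, MeasurableSingletonClass (X n)] (A : Set ℕ) [DecidablePred (· ∈ A)]
    (K : Set (∀ n, X n)) (hK : MeasurableSet K) (h0 : (Measure.infinitePi fun n => uni (X n)) K ≠ 0) :
    ∃ s : ∀ n, X n, (Measure.infinitePi fun n => uni (X n))
      {x | (fun l => if l ∈ A then x l else s l) ∈ K} ≠ 0 := by
  by_contra hcon
  push Not at hcon
  apply h0
  rw [← mix_map A, Measure.map_apply (mix_meas A) hK,
    Measure.prod_apply_symm (mix_meas A hK)]
  rw [lintegral_eq_zero_iff']
  · refine Filter.Eventually.of_forall (fun y => ?_)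
    exact hcon y
  · exact (measurable_measure_prodMk_right (mix_meas A hK)).aemeasurable

end Pool.Agent.helper34.MQ
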